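import Pool.Agent.Zk70.Y16.A

/-! Module Y-FIN: the data of one curve. -/

set_option autoImplicit false

namespace Pool.Agent.Zk70.Y16

open Finset Pool.Agent.Zk16.Y
open Pool.Agent.H39R3 (GMin condW)
open Pool.Agent.Zk16.J (ev_pow pow_rp one_le_condW)

/-- the data of one curve -/
structure Dd (δ A Z : ℝ) (q : ℤ × ℤ) (d i m m₁ r g : ℕ) (x y : ℤ) : Prop where
  R1 : Z ^ (1 / 5 + δ / 4) ≤ 10 * 2 ^ i
  R2 : (10 : ℝ) * 2 ^ i ≤ Z
  m0 : 1 ≤ m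
  mZ : (m : ℝ) ≤ Z ^ (A + 1)
  m10 : 1 ≤ m₁
  m1m : m₁ ∣ m
  m2 : (m : ℝ) * Z ^ (δ / 4) ≤ m₁ * Z ^ ((1 : ℝ) / 5)
  rdZ : (rd m : ℝ) ≤ Z ^ ((1 : ℝ) / 5)
  rs : Squarefree r
  rm : r ∣ m
  dt : ∃ t a b : ℤ, Dt (10 * 2 ^ i) m m₁ r x y t a b
  h1 : ((10 * 2 ^ i) * Z ^ (δ / 4)) ^ 6 ≤ max (|(x : ℝ)| ^ 3) ((y : ℝ) ^ 2)
  h2 : max (|(x : ℝ)| ^ 3) ((y : ℝ) ^ 2) ≤ Z ^ (A + 1)
  d0 : 1 ≤ d
  kb : ((rd m / r : ℕ) : ℝ) * (d : ℝ) ^ 2 * 16 ^ i ≤ 3456 * Z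
  dZ : (d : ℝ) ≤ 36 * Z
  kZ : (((x ^ 3 - y ^ 2).natAbs : ℕ) : ℝ) ≤ 2 * Z ^ A
  ne : x ^ 3 ≠ y ^ 2
  q1 : q.1 = (g : ℤ) ^ 2 * x
  q2 : |q.2| = (g : ℤ) ^ 3 * y
  gd : g ∣ 6 ^ 5 * (d * (x ^ 3 - y ^ 2).natAbs)

theorem est (δ A : ℝ) (hδ : 0 < δ) (hδ1 : δ ≤ 1 / 10) (hA : 1 ≤ A) :
    ∀ᶠ Z : ℝ in Filter.atTop, ∀ (W : WeierstrassCurve ℤ) (x y t a b : ℤ)
      (g d m m₁ r D t₁ : ℕ), Crv W x y t a b g d m m₁ r D t₁ →
      Z / 2 ≤ condW W → (condW W : ℝ) ≤ Z → (condW W : ℝ) ^ (4 / 5 + δ) ≤ sqp W →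
      (condW W : ℝ) ^ 3 ≤ HW W → HW W ≤ Z ^ A →
      Dd δ A Z (W.c₄, W.c₆) d (Nat.log 16 D + 1) m m₁ r g x y := by
  filter_upwards [Filter.eventually_ge_atTop (1000 : ℝ),
    ev_pow 36 (show 1 / 5 - δ / 2 < (2 : ℝ) / 5 by linarith),
    ev_pow 6 (show 1 / 5 - δ < (1 : ℝ) / 5 by linarith),
    ev_pow (4800 * 6 ^ 10) (show 7 / 10 - δ / 2 < (1 : ℝ) by linarith)] with Z hZ e5 e6 e7
  intro W x y t a b g d m m₁ r D t₁ h hN1 hN2 hs hN3 hHA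
  have hZ0 : 0 < Z := by linarith
  have hZ1 : 1 ≤ Z := by linarith
  have hN : (1 : ℝ) ≤ condW W := one_le_condW W
  set N : ℝ := (condW W : ℝ) with hNdef
  set s : ℝ := (sqp W : ℝ) with hsdef
  have hN0 : 0 < N := by linarith
  have hs1 : 1 ≤ s := (Real.one_le_rpow hN (by linarith)).trans hs
  have hs0 : 0 < s := by linarith
  -- `N ≤ s Z^(1/5-δ)`
  have hNs : N ≤ s * Z ^ (1 / 5 - δ) := by
    calc N = N ^ (4 / 5 + δ) * N ^ (1 / 5 - δ) := by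
          rw [← Real.rpow_add hN0]
          have : 4 / 5 + δ + (1 / 5 - δ) = (1 : ℝ) := by ring
          rw [this, Real.rpow_one]
      _ ≤ s * Z ^ (1 / 5 - δ) := by
          apply mul_le_mul hs _ (by positivity) hs0.le
          exact Real.rpow_le_rpow hN0.le hN2 (by linarith)
  have hP0 : 0 < Z ^ (1 / 5 - δ) := by positivity
  have key : ∀ u c : ℝ, 0 ≤ c → u * s ≤ c * N → u ≤ c * Z ^ (1 / 5 - δ) := by
    intro u c hc hu
    have h1 : u * s ≤ (c * Z ^ (1 / 5 - δ)) * s := by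
      calc u * s ≤ c * N := hu
        _ ≤ c * (s * Z ^ (1 / 5 - δ)) := by gcongr
        _ = _ := by ring
    exact le_of_mul_le_mul_right h1 hs0
  have hrd : (rd m : ℝ) ≤ 6 * Z ^ (1 / 5 - δ) := by
    apply key _ _ (by norm_num)
    rw [hNdef, hsdef]
    exact_mod_cast h.sm
  have hmm : ((m / m₁ : ℕ) : ℝ) ^ 2 ≤ 36 * Z ^ (1 / 5 - δ) := by
    apply key _ _ (by norm_num)
    have := h.sx
    have h2 : (((m / m₁) ^ 2 * sqp W : ℕ) : ℝ) ≤ ((6 ^ 2 * condW W : ℕ) : ℝ) := by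
      exact_mod_cast this
    push_cast at h2
    rw [hNdef, hsdef]
    norm_num at h2 ⊢
    exact h2
  have hgg : ((g : ℕ) : ℝ) ^ 2 ≤ 6 ^ 10 * Z ^ (1 / 5 - δ) := by
    apply key _ _ (by norm_num)
    have := h.sg
    have h2 : ((g ^ 2 * sqp W : ℕ) : ℝ) ≤ ((6 ^ 10 * condW W : ℕ) : ℝ) := by
      exact_mod_cast this
    push_cast at h2
    rw [hNdef, hsdef]
    norm_num at h2 ⊢
    exact h2
  have hsD : s ≤ D := by
    rw [hsdef]
    exact_mod_cast h.sD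
  have hD1r : (1 : ℝ) ≤ D := hs1.trans hsD
  have hD1 : 1 ≤ D := by exact_mod_cast hD1r
  have hm0 := h.m1
  have hm0r : (1 : ℝ) ≤ m := by exact_mod_cast hm0
  have hd0 := h.d1
  have hd0r : (1 : ℝ) ≤ d := by exact_mod_cast hd0
  have ht0 := h.t1
  have ht0r : (1 : ℝ) ≤ t₁ := by exact_mod_cast ht0
  have hg0 := h.g1
  have hg0r : (1 : ℝ) ≤ g := by exact_mod_cast hg0
  have hm10 : 1 ≤ m₁ := Nat.pos_of_dvd_of_pos h.m1m (by omega)
  have hm10r : (1 : ℝ) ≤ m₁ := by exact_mod_cast hm10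
  have hr0 : 1 ≤ r := Nat.pos_of_dvd_of_pos h.rm (by omega)
  have hr0r : (1 : ℝ) ≤ r := by exact_mod_cast hr0
  -- `D t₁ d² ≤ 36 N`
  have hK0 : (D : ℝ) * t₁ * (d : ℝ) ^ 2 ≤ 36 * N := by
    have := h.K0
    have h2 : ((D * t₁ * d ^ 2 : ℕ) : ℝ) ≤ ((6 ^ 2 * condW W : ℕ) : ℝ) := by
      exact_mod_cast this
    push_cast at h2
    rw [hNdef]
    norm_num at h2 ⊢
    exact h2
  have hd2 : (1 : ℝ) ≤ (d : ℝ) ^ 2 := one_le_pow₀ hd0r
  have hDN : (D : ℝ) ≤ 36 * N := by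
    refine le_trans ?_ hK0
    calc (D : ℝ) = D * 1 * 1 := by ring
      _ ≤ _ := by gcongr
  have hdN : (d : ℝ) ≤ 36 * N := by
    refine le_trans ?_ hK0
    calc (d : ℝ) ≤ (d : ℝ) ^ 2 := by nlinarith
      _ = 1 * 1 * (d : ℝ) ^ 2 := by ring
      _ ≤ _ := by gcongr
  -- the dyadic parameter
  set i : ℕ := Nat.log 16 D + 1 with hi
  have hi1 : (D : ℝ) ≤ 16 ^ i := by
    have : D < 16 ^ (Nat.log 16 D).succ := Nat.lt_pow_succ_log_self (by norm_num) D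
    have h2 : D ≤ 16 ^ i := this.le
    exact_mod_cast h2
  have hi2 : (16 : ℝ) ^ i ≤ 16 * D := by
    have : 16 ^ Nat.log 16 D ≤ D := Nat.pow_log_le_self 16 (by omega)
    have h2 : 16 ^ i ≤ 16 * D := by
      rw [hi, pow_succ]
      omega
    exact_mod_cast h2
  have hR0 : (0 : ℝ) < 10 * 2 ^ i := by positivity
  have hR4 : ((10 : ℝ) * 2 ^ i) ^ 4 = 10000 * 16 ^ i := by
    rw [mul_pow, ← pow_mul, mul_comm i 4, pow_mul]
    norm_num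
  have hR4' : ((10 : ℝ) * 2 ^ i) ^ 4 ≤ 5760000 * Z := by
    rw [hR4]
    linarith
  have hR2' : ((10 : ℝ) * 2 ^ i) ^ 2 ≤ 2400 * Z ^ ((1 : ℝ) / 2) := by
    apply le_of_sq_le_sq _ (by positivity)
    calc (((10 : ℝ) * 2 ^ i) ^ 2) ^ 2 = ((10 : ℝ) * 2 ^ i) ^ 4 := by ring
      _ ≤ 5760000 * Z := hR4'
      _ = (2400 * Z ^ ((1 : ℝ) / 2)) ^ 2 := by
          rw [mul_pow, pow_rp hZ0]
          norm_num
  -- the height
  have hHW : HW W = (g : ℝ) ^ 6 * max (|(x : ℝ)| ^ 3) ((y : ℝ) ^ 2) := by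
    have h4 : (W.c₄ : ℝ) = (g : ℝ) ^ 2 * x := by
      have := h.h4
      exact_mod_cast this
    have h6 : |(W.c₆ : ℝ)| = (g : ℝ) ^ 3 * y := by
      have := h.h6
      exact_mod_cast this
    unfold HW
    rw [mul_max_of_nonneg _ _ (by positivity)]
    congr 1
    · rw [h4, abs_mul, abs_of_nonneg (show (0 : ℝ) ≤ (g : ℝ) ^ 2 by positivity)]
      ring
    · rw [← sq_abs, h6]
      ring
  set H : ℝ := max (|(x : ℝ)| ^ 3) ((y : ℝ) ^ 2) with hH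
  have hH0 : 0 ≤ H := le_trans (by positivity) (le_max_right _ _)
  have hg6 : (1 : ℝ) ≤ (g : ℝ) ^ 6 := one_le_pow₀ hg0r
  have hHle : H ≤ Z ^ A := by
    calc H = 1 * H := by ring
      _ ≤ (g : ℝ) ^ 6 * H := by gcongr
      _ = HW W := hHW.symm
      _ ≤ Z ^ A := hHA
  have hZA : 2 * Z ^ A ≤ Z ^ (A + 1) := by
    rw [Real.rpow_add hZ0, Real.rpow_one, mul_comm]
    have : 0 < Z ^ A := by positivity
    gcongr
    linarith
  have hkabs : (((x ^ 3 - y ^ 2).natAbs : ℕ) : ℝ) = |(x : ℝ) ^ 3 - (y : ℝ) ^ 2| := by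
    rw [Nat.cast_natAbs, Int.cast_abs]
    push_cast
    rfl
  have hkD : |(x : ℝ) ^ 3 - (y : ℝ) ^ 2| = D * (m : ℝ) ^ 2 := by
    rw [← hkabs, h.kD]
    push_cast
    rfl
  have hkZ : (((x ^ 3 - y ^ 2).natAbs : ℕ) : ℝ) ≤ 2 * Z ^ A := by
    rw [hkabs]
    have h1 : |(x : ℝ) ^ 3 - (y : ℝ) ^ 2| ≤ |(x : ℝ)| ^ 3 + (y : ℝ) ^ 2 := by
      have := abs_sub ((x : ℝ) ^ 3) ((y : ℝ) ^ 2)
      rw [abs_pow, abs_of_nonneg (sq_nonneg (y : ℝ))] at this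
      exact this
    have h2 : |(x : ℝ)| ^ 3 ≤ H := le_max_left _ _
    have h3 : (y : ℝ) ^ 2 ≤ H := le_max_right _ _
    linarith
  have hmZ : (m : ℝ) ≤ Z ^ (A + 1) := by
    calc (m : ℝ) ≤ (m : ℝ) ^ 2 := by nlinarith
      _ = 1 * (m : ℝ) ^ 2 := by ring
      _ ≤ D * (m : ℝ) ^ 2 := by gcongr
      _ = (((x ^ 3 - y ^ 2).natAbs : ℕ) : ℝ) := by rw [hkabs, hkD]
      _ ≤ 2 * Z ^ A := hkZ
      _ ≤ _ := hZA
  constructor
  case R1 =>
    apply le_of_pow_le_pow_left₀ (n := 4) (by norm_num) hR0.le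
    have h2e : (2 : ℝ) ^ (4 / 5 + δ) ≤ 2 := by
      calc (2 : ℝ) ^ (4 / 5 + δ) ≤ 2 ^ (1 : ℝ) :=
            Real.rpow_le_rpow_of_exponent_le (by norm_num) (by linarith)
        _ = 2 := Real.rpow_one 2
    have h2e0 : (0 : ℝ) < 2 ^ (4 / 5 + δ) := by positivity
    calc (Z ^ (1 / 5 + δ / 4)) ^ 4 = Z ^ (4 / 5 + δ) := by
          rw [pow_rp hZ0]
          congr 1
          push_cast
          ring
      _ = 2 ^ (4 / 5 + δ) * (Z / 2) ^ (4 / 5 + δ) := by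
          rw [Real.div_rpow hZ0.le (by norm_num)]
          field_simp
      _ ≤ 2 * N ^ (4 / 5 + δ) := by
          have : (Z / 2) ^ (4 / 5 + δ) ≤ N ^ (4 / 5 + δ) :=
            Real.rpow_le_rpow (by positivity) hN1 (by linarith)
          gcongr
      _ ≤ 10000 * 16 ^ i := by linarith
      _ = _ := hR4.symm
  case R2 =>
    apply le_of_pow_le_pow_left₀ (n := 4) (by norm_num) hZ0.le
    refine hR4'.trans ?_
    have : (1000 : ℝ) ^ 3 ≤ Z ^ 3 := by gcongr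
    calc 5760000 * Z ≤ 1000 ^ 3 * Z := by gcongr; norm_num
      _ ≤ Z ^ 3 * Z := by gcongr
      _ = Z ^ 4 := by ring
  case m0 => exact hm0
  case mZ => exact hmZ
  case m10 => exact hm10
  case m1m => exact h.m1m
  case m2 =>
    have h1 : (m : ℝ) = ((m / m₁ : ℕ) : ℝ) * m₁ := by
      have := Nat.div_mul_cancel h.m1m
      exact_mod_cast this.symm
    have h2 : ((m / m₁ : ℕ) : ℝ) * Z ^ (δ / 4) ≤ Z ^ ((1 : ℝ) / 5) := by
      apply le_of_sq_le_sq _ (by positivity)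
      calc (((m / m₁ : ℕ) : ℝ) * Z ^ (δ / 4)) ^ 2
          = ((m / m₁ : ℕ) : ℝ) ^ 2 * (Z ^ (δ / 4)) ^ 2 := by ring
        _ ≤ (36 * Z ^ (1 / 5 - δ)) * (Z ^ (δ / 4)) ^ 2 := by gcongr
        _ = 36 * Z ^ (1 / 5 - δ / 2) := by
            rw [pow_rp hZ0, mul_assoc, ← Real.rpow_add hZ0]
            congr 2
            push_cast
            ring
        _ ≤ Z ^ ((2 : ℝ) / 5) := e5
        _ = (Z ^ ((1 : ℝ) / 5)) ^ 2 := by
            rw [pow_rp hZ0]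
            congr 1
            push_cast
            ring
    calc (m : ℝ) * Z ^ (δ / 4) = m₁ * (((m / m₁ : ℕ) : ℝ) * Z ^ (δ / 4)) := by rw [h1]; ring
      _ ≤ _ := by gcongr
  case rdZ => exact hrd.trans e6
  case rs => exact h.rs
  case rm => exact h.rm
  case dt =>
    refine ⟨t, a, b, ?_⟩
    constructor
    case y0 => exact h.y0
    case ne => exact h.ne
    case kR =>
      rw [hkD, hR4]
      have : 0 ≤ (m : ℝ) ^ 2 := by positivity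
      nlinarith
    case Rk =>
      rw [hkD, hR4]
      have : 0 ≤ (m : ℝ) ^ 2 := by positivity
      nlinarith
    case m1 => exact hm0
    case ha => exact h.ha
    case hb => exact h.hb
    case cop => exact h.cop
    case rk =>
      rw [Int.natCast_dvd, h.kD]
      exact Nat.mul_dvd_mul_right h.rD _
    case r5 => exact h.r5
    case nr => exact h.nr
  case h1 =>
    have h1 : ((10 * 2 ^ i) * Z ^ (δ / 4) * g) ^ 2 ≤ N := by
      calc ((10 * 2 ^ i) * Z ^ (δ / 4) * g) ^ 2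
          = ((10 : ℝ) * 2 ^ i) ^ 2 * (Z ^ (δ / 4)) ^ 2 * (g : ℝ) ^ 2 := by ring
        _ ≤ (2400 * Z ^ ((1 : ℝ) / 2)) * (Z ^ (δ / 4)) ^ 2 * (6 ^ 10 * Z ^ (1 / 5 - δ)) := by
            gcongr
        _ = (2400 * 6 ^ 10) * (Z ^ ((1 : ℝ) / 2) * (Z ^ (δ / 4)) ^ 2 * Z ^ (1 / 5 - δ)) := by
            ring
        _ = (2400 * 6 ^ 10) * Z ^ (7 / 10 - δ / 2) := by
            rw [pow_rp hZ0, ← Real.rpow_add hZ0, ← Real.rpow_add hZ0]
            congr 2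
            push_cast
            ring
        _ ≤ Z / 2 := by
            rw [Real.rpow_one] at e7
            linarith
        _ ≤ N := hN1
    have h2 : ((10 * 2 ^ i) * Z ^ (δ / 4)) ^ 6 * (g : ℝ) ^ 6 ≤ H * (g : ℝ) ^ 6 := by
      calc ((10 * 2 ^ i) * Z ^ (δ / 4)) ^ 6 * (g : ℝ) ^ 6
          = (((10 * 2 ^ i) * Z ^ (δ / 4) * g) ^ 2) ^ 3 := by ring
        _ ≤ N ^ 3 := by gcongr
        _ ≤ HW W := hN3
        _ = H * (g : ℝ) ^ 6 := by rw [hHW]; ring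
    exact le_of_mul_le_mul_right h2 (by positivity)
  case h2 =>
    have : 0 < Z ^ A := by positivity
    linarith
  case d0 => exact hd0
  case kb =>
    have hdvd : r ∣ rd m := dvd_rd h.rs h.rm hm0
    have h1 : rd m / r ≤ 6 * t₁ := by
      have e1 := Nat.div_mul_cancel hdvd
      have e2 := h.rdm
      have e3 : r * (rd m / r) ≤ r * (6 * t₁) := by
        calc r * (rd m / r) = rd m := by rw [mul_comm]; exact e1
          _ ≤ 6 * (r * t₁) := e2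
          _ = r * (6 * t₁) := by ring
      exact Nat.le_of_mul_le_mul_left e3 (by omega)
    have h2 : ((rd m / r : ℕ) : ℝ) ≤ 6 * t₁ := by exact_mod_cast h1
    calc ((rd m / r : ℕ) : ℝ) * (d : ℝ) ^ 2 * 16 ^ i ≤ (6 * t₁) * (d : ℝ) ^ 2 * (16 * D) := by
          gcongr
      _ = 96 * (D * t₁ * (d : ℝ) ^ 2) := by ring
      _ ≤ 96 * (36 * N) := by gcongr
      _ ≤ 3456 * Z := by linarith
  case dZ => linarith
  case kZ => exact hkZ
  case ne => exact h.ne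
  case q1 => exact h.h4
  case q2 => exact h.h6
  case gd => exact h.gd

end Pool.Agent.Zk70.Y16
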