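import Pool.Agent.Zk70.Y16.B

/-! Module Y-FIN: the final count. -/

set_option autoImplicit false

namespace Pool.Agent.Zk70.Y16

open Finset Pool.Agent.Zk16.Y
open Pool.Agent.H39R3 (GMin condW)
open Pool.Agent.W270.TM (TwoT)
open Pool.Agent.Zk16.J (ev_pow pow_rp one_le_condW mem_box_of)

theorem t_FIN (hPTS : S_PTS) (hCRV : S_CRV) (hNM : S_NM) : S_FIN := by
  classical
  intro δ A hδ hδ1 hA
  obtain ⟨c, C1, hc, hC1, hP⟩ := hPTS (δ / 4) (A + 1) (by positivity) (by linarith)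
  set ε : ℝ := c / 4 with hε
  have hε0 : 0 < ε := by positivity
  obtain ⟨C2, hC2, hS2⟩ := sum_cls hNM 3456 (A + 1) ε (by norm_num) (by linarith) hε0
  set η : ℝ := ε / (A + 1) with hη
  have hη0 : 0 < η := by positivity
  obtain ⟨C3, hC3, hτ⟩ := Pool.Agent.Zk16.J.tau_le hη0
  obtain ⟨Z₀, hZ₀⟩ := Filter.eventually_atTop.mp (est δ A hδ hδ1 hA)
  set M₀ : ℝ := (6 : ℝ) ^ 5 * (36 * 2) with hM₀
  set H₀ : ℝ := (max Z₀ 1) ^ A with hH₀
  have hH₀0 : 0 ≤ H₀ := by positivity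
  set C0 : ℝ := ((Icc (-⌊H₀⌋) ⌊H₀⌋ ×ˢ Icc (-⌊H₀⌋) ⌊H₀⌋ : Finset (ℤ × ℤ)).card : ℝ) with hC0
  have hC00 : 0 ≤ C0 := by positivity
  set c' : ℝ := min (c / 2) 1 with hc'
  have hc'0 : 0 < c' := lt_min (by positivity) one_pos
  have hc'1 : c' ≤ c / 2 := min_le_left _ _
  have hc'2 : c' ≤ 1 := min_le_right _ _
  set Cb : ℝ := 2 * (C3 * M₀ ^ η) with hCb
  have hCb0 : 0 ≤ Cb := by positivity
  refine ⟨c', 1 + C0 + Cb * (C1 * (10000 * C2)), hc'0, ?_, ?_⟩
  · have : 0 ≤ Cb * (C1 * (10000 * C2)) := by positivity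
    linarith
  intro Z hZ S hS
  have hZ0 : 0 < Z := by linarith
  have hPow1 : 1 ≤ Z ^ (1 - c') := Real.one_le_rpow hZ (by linarith)
  rcases le_or_gt Z₀ Z with hbig | hsmall
  swap
  · -- small `Z`
    have hsub : S ⊆ (Icc (-⌊H₀⌋) ⌊H₀⌋ ×ˢ Icc (-⌊H₀⌋) ⌊H₀⌋ : Finset (ℤ × ℤ)) := by
      intro q hq
      obtain ⟨W, rfl, -, -, -, -, -, -, -, -, h9⟩ := hS q hq
      apply mem_box_of hH₀0
      refine le_trans h9 ?_
      rw [hH₀]
      apply Real.rpow_le_rpow hZ0.le _ (by linarith)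
      exact hsmall.le.trans (le_max_left _ _)
    have h1 : (S.card : ℝ) ≤ C0 := by
      rw [hC0]
      exact_mod_cast card_le_card hsub
    have h2 : 0 ≤ Cb * (C1 * (10000 * C2)) := by positivity
    calc (S.card : ℝ) ≤ C0 := h1
      _ ≤ (1 + C0 + Cb * (C1 * (10000 * C2))) * 1 := by linarith
      _ ≤ (1 + C0 + Cb * (C1 * (10000 * C2))) * Z ^ (1 - c') := by gcongr
  -- large `Z`
  have hdat : ∀ q ∈ S, ∃ (d i m m₁ r g : ℕ) (x y : ℤ), Dd δ A Z q d i m m₁ r g x y := by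
    intro q hq
    obtain ⟨W, rfl, hW, h4, h6, hT, a1, a2, a3, a4, a5⟩ := hS q hq
    obtain ⟨x, y, t, a, b, g, d, m, m₁, r, D, t₁, hC⟩ := hCRV W hW h4 h6 hT
    exact ⟨d, _, m, m₁, r, g, x, y, hZ₀ Z hbig W x y t a b g d m m₁ r D t₁ hC a1 a2 a3 a4 a5⟩
  choose! d i m m₁ r g x y hD using hdat
  set κ : ℤ × ℤ → ℕ × ℕ × ℕ × ℕ × ℕ := fun q => (d q, i q, m q, m₁ q, r q) with hκ
  set v : ℤ × ℤ → ℤ × ℤ := fun q => (x q, y q) with hv
  set f : ℤ × ℤ → (ℕ × ℕ × ℕ × ℕ × ℕ) × (ℤ × ℤ) := fun q => (κ q, v q) with hf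
  -- the fibres of `f`
  have hfib : ∀ u ∈ S.image f, ((S.filter (fun q => f q = u)).card : ℝ) ≤ Cb * Z ^ ε := by
    intro u hu
    obtain ⟨q0, hq0S, hq0⟩ := mem_image.mp hu
    set T := S.filter (fun q => f q = u) with hT
    have hmem : ∀ q ∈ T, q ∈ S ∧ d q = u.1.1 ∧ x q = u.2.1 ∧ y q = u.2.2 := by
      intro q hq
      obtain ⟨k1, k2⟩ := mem_filter.mp hq
      refine ⟨k1, ?_, ?_, ?_⟩
      · rw [← k2]
      · rw [← k2]
      · rw [← k2]
    obtain ⟨-, hd0, hx0, hy0⟩ := hmem q0 (mem_filter.mpr ⟨hq0S, hq0⟩)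
    have D0 := hD q0 hq0S
    set M : ℕ := 6 ^ 5 * (u.1.1 * (u.2.1 ^ 3 - u.2.2 ^ 2).natAbs) with hM
    have hM0 : M ≠ 0 := by
      have k1 := D0.d0
      have k2 := D0.ne
      rw [hd0] at k1
      rw [hx0, hy0] at k2
      have k3 : (u.2.1 ^ 3 - u.2.2 ^ 2).natAbs ≠ 0 :=
        Int.natAbs_ne_zero.mpr (sub_ne_zero.mpr k2)
      rw [hM]
      positivity
    have hsub : T ⊆ (M.divisors.image (fun h : ℕ => ((h : ℤ) ^ 2 * u.2.1, (h : ℤ) ^ 3 * u.2.2))) ∪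
        (M.divisors.image (fun h : ℕ => ((h : ℤ) ^ 2 * u.2.1, -((h : ℤ) ^ 3 * u.2.2)))) := by
      intro q hq
      obtain ⟨hqS, k1, k2, k3⟩ := hmem q hq
      have Dq := hD q hqS
      have hgd := Dq.gd
      have hxq := Dq.q1
      have hyq := Dq.q2
      rw [k1, k2, k3] at hgd
      rw [k2] at hxq
      rw [k3] at hyq
      have hgm : g q ∈ M.divisors := Nat.mem_divisors.mpr ⟨hgd, hM0⟩
      rw [mem_union, mem_image, mem_image]
      rcases abs_choice q.2 with h | h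
      · left
        refine ⟨g q, hgm, ?_⟩
        exact Prod.ext hxq.symm (by simp only; rw [← hyq, h])
      · right
        refine ⟨g q, hgm, ?_⟩
        exact Prod.ext hxq.symm (by simp only; rw [← hyq, h, neg_neg])
    have g1 := (card_le_card hsub).trans (card_union_le _ _)
    have g2 : T.card ≤ 2 * M.divisors.card := by
      have a1 : (M.divisors.image
        (fun h : ℕ => ((h : ℤ) ^ 2 * u.2.1, (h : ℤ) ^ 3 * u.2.2))).card ≤ M.divisors.card :=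
        card_image_le
      have a2 : (M.divisors.image
        (fun h : ℕ => ((h : ℤ) ^ 2 * u.2.1, -((h : ℤ) ^ 3 * u.2.2)))).card ≤ M.divisors.card :=
        card_image_le
      omega
    have hMr : (M : ℝ) ≤ M₀ * Z ^ (A + 1) := by
      have k1 := D0.dZ
      have k2 := D0.kZ
      rw [hd0] at k1
      rw [hx0, hy0] at k2
      calc (M : ℝ) = (6 : ℝ) ^ 5 * ((u.1.1 : ℝ) * (((u.2.1 ^ 3 - u.2.2 ^ 2).natAbs : ℕ) : ℝ)) := by
            rw [hM, Nat.cast_mul, Nat.cast_mul]; norm_num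
        _ ≤ 6 ^ 5 * ((36 * Z) * (2 * Z ^ A)) := by gcongr
        _ = M₀ * (Z ^ A * Z ^ (1 : ℝ)) := by rw [Real.rpow_one, hM₀]; ring
        _ = M₀ * Z ^ (A + 1) := by rw [← Real.rpow_add hZ0]
    have hMη : (M : ℝ) ^ η ≤ M₀ ^ η * Z ^ ε := by
      calc (M : ℝ) ^ η ≤ (M₀ * Z ^ (A + 1)) ^ η := by gcongr
        _ = M₀ ^ η * Z ^ ((A + 1) * η) := by
            rw [Real.mul_rpow (by positivity) (by positivity), ← Real.rpow_mul hZ0.le]
        _ = M₀ ^ η * Z ^ ε := by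
            congr 2
            rw [hη]
            field_simp
    calc (T.card : ℝ) ≤ 2 * M.divisors.card := by exact_mod_cast g2
      _ ≤ 2 * (C3 * (M : ℝ) ^ η) := by
          have := hτ M hM0
          linarith
      _ ≤ 2 * (C3 * (M₀ ^ η * Z ^ ε)) := by gcongr
      _ = Cb * Z ^ ε := by rw [hCb]; ring
  have hS1 : (S.card : ℝ) ≤ ((S.image f).card : ℝ) * (Cb * Z ^ ε) := by
    have g4 : (S.card : ℝ) = ∑ u ∈ S.image f, ((S.filter (fun q => f q = u)).card : ℝ) := by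
      have := card_eq_sum_card_image f S
      exact_mod_cast this
    rw [g4]
    calc ∑ u ∈ S.image f, ((S.filter (fun q => f q = u)).card : ℝ)
        ≤ ∑ _u ∈ S.image f, Cb * Z ^ ε := sum_le_sum hfib
      _ = _ := by rw [sum_const, nsmul_eq_mul]
  -- the points of one class
  have hcl : ∀ k ∈ S.image κ, ((((S.image f).filter (fun u => u.1 = k)).card : ℕ) : ℝ) ≤
      (C1 * (10000 * Z ^ (-c))) * (16 ^ k.2.1 / k.2.2.2.2) := by
    intro k hk
    obtain ⟨q0, hq0S, hq0⟩ := mem_image.mp hk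
    set F := (S.image f).filter (fun u => u.1 = k) with hF
    have hFm : ∀ u ∈ F, ∃ q ∈ S, u = (k, v q) ∧ d q = k.1 ∧ i q = k.2.1 ∧ m q = k.2.2.1 ∧
        m₁ q = k.2.2.2.1 ∧ r q = k.2.2.2.2 := by
      intro u hu
      obtain ⟨h1, h2⟩ := mem_filter.mp hu
      obtain ⟨q, hq, rfl⟩ := mem_image.mp h1
      have h3 : κ q = k := h2
      refine ⟨q, hq, ?_, ?_, ?_, ?_, ?_, ?_⟩
      · show (κ q, v q) = (k, v q)
        rw [h3]
      · rw [← h3]
      · rw [← h3]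
      · rw [← h3]
      · rw [← h3]
      · rw [← h3]
    have hcardF : F.card = (F.image Prod.snd).card := by
      rw [card_image_of_injOn]
      intro u hu u' hu' he
      obtain ⟨q, -, h1, -⟩ := hFm u hu
      obtain ⟨q', -, h1', -⟩ := hFm u' hu'
      have e1 : u.1 = k := by rw [h1]
      have e2 : u'.1 = k := by rw [h1']
      exact Prod.ext (e1.trans e2.symm) he
    have D0 := hD q0 hq0S
    have hk1 : i q0 = k.2.1 := by rw [← hq0]
    have hk2 : m q0 = k.2.2.1 := by rw [← hq0]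
    have hk3 : m₁ q0 = k.2.2.2.1 := by rw [← hq0]
    have hk4 : r q0 = k.2.2.2.2 := by rw [← hq0]
    have R1 := D0.R1
    have R2 := D0.R2
    have m0 := D0.m0
    have mZ := D0.mZ
    have m10 := D0.m10
    have m1m := D0.m1m
    have m2 := D0.m2
    have rdZ := D0.rdZ
    have rs := D0.rs
    have rm := D0.rm
    rw [hk1] at R1 R2
    rw [hk2] at m0 mZ m1m m2 rdZ rm
    rw [hk3] at m10 m1m m2
    rw [hk4] at rs rm
    have h1 := hP Z (10 * 2 ^ k.2.1) k.2.2.1 k.2.2.2.1 k.2.2.2.2 (F.image Prod.snd) hZ R1 R2 m0 mZ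
      m10 m1m m2 rdZ rs rm (by
      intro e he
      obtain ⟨u, hu, rfl⟩ := mem_image.mp he
      obtain ⟨q, hq, h1, h2, h3, h4, h5, h6⟩ := hFm u hu
      have Dq := hD q hq
      have e1 : u.2 = (x q, y q) := by rw [h1]
      rw [e1]
      have dt := Dq.dt
      have a1 := Dq.h1
      have a2 := Dq.h2
      rw [h3, h4, h5, h6] at dt
      rw [h3] at a1
      exact ⟨dt, a1, a2⟩)
    rw [hcardF]
    have hR4 : ((10 : ℝ) * 2 ^ k.2.1) ^ 4 = 10000 * 16 ^ k.2.1 := by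
      rw [mul_pow, ← pow_mul, mul_comm k.2.1 4, pow_mul]
      norm_num
    calc ((F.image Prod.snd).card : ℝ)
        ≤ C1 * ((10 * 2 ^ k.2.1) ^ 4 / k.2.2.2.2) * Z ^ (-c) := h1
      _ = (C1 * (10000 * Z ^ (-c))) * (16 ^ k.2.1 / k.2.2.2.2) := by rw [hR4]; ring
  have hS3 : ((S.image f).card : ℝ) ≤ (C1 * (10000 * Z ^ (-c))) * (C2 * Z ^ (1 + ε)) := by
    have hmaps : ∀ u ∈ S.image f, u.1 ∈ S.image κ := by
      intro u hu
      obtain ⟨q, hq, rfl⟩ := mem_image.mp hu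
      exact mem_image_of_mem κ hq
    have g4 : ((S.image f).card : ℝ) =
        ∑ k ∈ S.image κ, ((((S.image f).filter (fun u => u.1 = k)).card : ℕ) : ℝ) := by
      have := card_eq_sum_card_fiberwise hmaps
      exact_mod_cast this
    rw [g4]
    calc ∑ k ∈ S.image κ, ((((S.image f).filter (fun u => u.1 = k)).card : ℕ) : ℝ)
        ≤ ∑ k ∈ S.image κ, (C1 * (10000 * Z ^ (-c))) * (16 ^ k.2.1 / k.2.2.2.2) :=
          sum_le_sum hcl
      _ = (C1 * (10000 * Z ^ (-c))) * ∑ k ∈ S.image κ, (16 : ℝ) ^ k.2.1 / k.2.2.2.2 := by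
          rw [mul_sum]
      _ ≤ (C1 * (10000 * Z ^ (-c))) * (C2 * Z ^ (1 + ε)) := by
          have h1 := hS2 Z (S.image κ) hZ (by
            intro k hk
            obtain ⟨q, hq, rfl⟩ := mem_image.mp hk
            have Dq := hD q hq
            exact ⟨Dq.d0, Dq.m0, Dq.mZ, Dq.m1m,
              Nat.pos_of_dvd_of_pos Dq.rm Dq.m0, dvd_rd Dq.rs Dq.rm Dq.m0, Dq.kb⟩)
          gcongr
  calc (S.card : ℝ) ≤ ((S.image f).card : ℝ) * (Cb * Z ^ ε) := hS1
    _ ≤ ((C1 * (10000 * Z ^ (-c))) * (C2 * Z ^ (1 + ε))) * (Cb * Z ^ ε) := by gcongr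
    _ = Cb * (C1 * (10000 * C2)) * (Z ^ (-c) * Z ^ (1 + ε) * Z ^ ε) := by ring
    _ = Cb * (C1 * (10000 * C2)) * Z ^ (1 - c / 2) := by
        rw [← Real.rpow_add hZ0, ← Real.rpow_add hZ0]
        congr 2
        rw [hε]
        ring
    _ ≤ Cb * (C1 * (10000 * C2)) * Z ^ (1 - c') := by
        have : Z ^ (1 - c / 2) ≤ Z ^ (1 - c') :=
          Real.rpow_le_rpow_of_exponent_le hZ (by linarith)
        gcongr
    _ ≤ (1 + C0 + Cb * (C1 * (10000 * C2))) * Z ^ (1 - c') := by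
        gcongr
        linarith

end Pool.Agent.Zk70.Y16
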